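import Pool.Agent.K7.H81.UF

set_option autoImplicit false

/-!
# MP_b78339: the sharp extrapolation exponents
-/

namespace Pool.Agent.Results.MP_b78339_an.SharpExtrapolation

open MeasureTheory Set Filter Topology Pool.Agent.R955.FD Pool.Agent.K7.H81.FD
open scoped ENNReal

universe u

/-- **UMD**: for some `p ∈ (1, ∞)` (equivalently, by Maurey and Burkholder, for all) martingale differences are
unconditional in `L^p(Ω; X)`: there is a constant `β` with `‖∑ ε_n d_n‖_p ≤ β ‖∑ d_n‖_p` for all `X`-valued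
`L^p`-martingales `M` on probability spaces, with differences `d_0 = M_0`, `d_{n+1} = M_{n+1} - M_n`, and all signs
`ε_n`. -/
def IsUMD (X : Type u) [NormedAddCommGroup X] [NormedSpace ℂ X] : Prop :=
  ∃ p : ℝ, 1 < p ∧ ∃ β : ℝ, ∀ (Ω : Type) (m0 : MeasurableSpace Ω) (μ : Measure Ω)
    (_ : IsProbabilityMeasure μ) (ℱ : Filtration ℕ m0) (M : ℕ → Ω → X), Martingale M ℱ μ →
    (∀ n, MemLp (M n) (ENNReal.ofReal p) μ) → ∀ ε : ℕ → ℝ, (∀ n, ε n = 1 ∨ ε n = -1) → ∀ N : ℕ,
      eLpNorm (fun ω => ε 0 • M 0 ω + ∑ n ∈ Finset.range N, ε (n + 1) • (M (n + 1) ω - M n ω))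
        (ENNReal.ofReal p) μ ≤ ENNReal.ofReal β * eLpNorm (M N) (ENNReal.ofReal p) μ

/-- The number `θ = min (p / r) (p' / r')`, `t' = t / (t - 1)`. -/
noncomputable def th (p r : ℝ) : ℝ := min (p / r) ((p / (p - 1)) / (r / (r - 1)))

/-- Positive answer to Q1; for lower decompositions the UMD property is not needed. -/
theorem result (X : Type u) [NormedAddCommGroup X] [NormedSpace ℂ X] [CompleteSpace X] (p q r : ℝ)
    (hp : 1 < p) (hq : 1 < q) (hr : 1 < r) :
    (IsUMD X → UpperT X (ENNReal.ofReal p) (ENNReal.ofReal q) → ∀ s : ℝ, 1 < s →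
      s / (s - 1) = (q / (q - 1)) / th p r → UpperT X (ENNReal.ofReal r) (ENNReal.ofReal s)) ∧
    (LowerT X (ENNReal.ofReal p) (ENNReal.ofReal q) →
      LowerT X (ENNReal.ofReal r) (ENNReal.ofReal (q / th p r))) := by
  refine ⟨?_, fun h => lower_extrap hp hq hr h⟩
  rintro ⟨p0, hp0, β, hβ⟩ h s hs hsq
  obtain ⟨B, hB0, hB⟩ := HB_of_UMDp (X := X) hp0 hβ
  obtain ⟨B', hB'0, hB'⟩ := HB_extrap hp0 hp hB0 hB
  exact upper_extrap_HB hp hq hr hs hsq hB'0 hB' h

end Pool.Agent.Results.MP_b78339_an.SharpExtrapolation
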